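import Pool.Agent.Q7.LS.Def

/-!
# Project LS (helper7): statements of the parts

GOAL (`S_MAIN`).  `p` odd, `μ_p ⊂ F`, `L = F(d^(1/p))` in the nested ensembles of project LK, `S` a finite set of primes, `T` a set of primes above
`p`, `S ∩ T = ∅`, `m = r2(F)`, `s` the number of the `v ∈ S` which split completely in `L`, `N_T = ∑_(v ∈ T) [F_v : ℚ_p]`.  The group `NS L S` of the
`S`-units of `L` of relative norm `1` has the rank `(p-1)(m+s)`, its closure at the places above `T` has at most the `ℤ_p`-rank `(p-1) N_T`.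
(1) `m + s ≤ N_T`: for a share `≥ 1 - p^(m+s-N_T)/(p-1) - ε` all multiplicatively independent elements of `NS L S` are independent over `ℤ_p`, and the defect of every
group `H` of `S`-units of `L` is at most that of its norm group.  (2) `m + s ≥ N_T`: for a share `≥ 1 - p^(N_T-m-s)/(p-1) - ε` the closure of `NS L S` has the maximal rank
`(p-1) N_T`.

The proofs of LK (units, `S = ∅`) are templates.  Facts used everywhere: `F` is totally complex, `[F : ℚ] = 2 r2`; `N v ≡ 1` modulo `p` for `v ∤ p`.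
All facts of project LK are available: `import Pool.Agent.Q7.LK.All3` (`t_BAS`, `t_CPL`, `t_LOCV`, `t_LOC`, `t_BASE`, `t_COUNT`, `t_SH1`, `t_ATL`, `t_AUN`, `t_AUC`, `t_LAM`, ...), and
`Pool.Agent.Q7.CF.All4` for the theorems of project EN (`Pool.Agent.Q265.EN.trf : S_TRF` from `t_NEST`, `t_SH1`).  Prove your job as a theorem WITHOUT hypotheses, or with the hypotheses named in
uses (other jobs of this file).
-/

set_option autoImplicit false

namespace Pool.Agent.Q7.LS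

open NumberField IsDedekindDomain Filter Topology Finset
open Pool.Agent.Q283.LQ (Sm Box Nest nS)
open Pool.Agent.Q7.LK
open Pool.Agent.Q283.EN (CondX)

/-! ## The group of the `S`-units of norm `1` -/

/-- JOB SUR. The theorem on `S`-units.
Proof.  (See `Pool/Agent/Q277/LK/SU.lean`, `Pool/Agent/Q96/LQ/SU*`, which prove this for the set of the primes above the rational primes `≤ y`; or search the library for `S`-units.)
The homomorphism `U_P → ℤ^P`, `x ↦ (ord_v x)`, has the kernel `(𝓞 K)ˣ` (rank `r1 + r2 - 1`, Dirichlet, Mathlib) and contains in its image `h ℤ^P`, `h` the class number.  The rank of a finitely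
generated abelian group is additive (`Module.finrank ℤ`, torsion does not count). -/
def S_SUR : Prop := ∀ (K : Type) [Field K] [NumberField K] (P : Set (HeightOneSpectrum (𝓞 K))), P.Finite →
  ∃ U : Subgroup Kˣ, (∀ x : Kˣ, x ∈ U ↔ ∀ v : HeightOneSpectrum (𝓞 K), v ∉ P → v.valuation K (x : K) = 1) ∧
    Group.FG U ∧ Module.finrank ℤ (Additive U) = InfinitePlace.nrRealPlaces K + InfinitePlace.nrComplexPlaces K - 1 + P.ncard

/-- JOB SPL (uses `LK.S_BAS`, `LK.S_CPL`). Primes above a completely split prime.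
Proof.  `d = s^p` in `K = v.adicCompletion F` (`S_CPL`), so `ρ ↦ s ζ^i` gives `p` different `F`-embeddings `τ_i : L → K`, `0 ≤ i < p` (`L = F(ρ)`, `ρ^p = d`).  Each gives a prime `P_i = {x ∈ 𝓞 L : v(τ_i x) < 1}`
above `v`.  They are different: choose `y ∈ F` close to `s`; then `(ρ - y)`, multiplied by an element of `F` that makes it integral, is much smaller under `τ_0` than `τ_i(ρ) - y ≈ (ζ^i - 1) s`: so
`τ_0^{-1}(small) ≠`; more precisely for `i ≠ j` approximate `τ_i(ρ)` by `y ∈ F`: `v(τ_i(ρ - y)) < v(τ_j(ρ - y))`, so `z = (ρ - y)/c` with `c ∈ F`, `v(c) = v(τ_j (ρ - y))` has `v(τ_i z) < 1 = v(τ_j z)`, and `z` times a suitable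
element of `𝓞 F` outside `v` (which makes it integral at the primes not above `v`; at the primes above `v` `z` may be non integral at a third prime: take a high power of an element of `𝓞 L`
by weak approximation, or argue with the valuations of `L` given by the `τ_i`: two equivalent valuations that agree on `F` are equal).
Another way: the Galois group is transitive on the primes above `v`; if `P_0` is fixed by `σ` then the valuation `v ∘ τ_0` is `σ`-invariant, but `v(τ_0(ρ - y))` is small and `v(τ_0(σ(ρ - y))) = v(s ζ^i - y)` is not.  A group of order `p`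
acting without fixed point on the set of the primes above `v` has orbits of length `p`. -/
def S_SPL : Prop := ∀ (p : ℕ) [Fact p.Prime], p ≠ 2 → ∀ (F L : Type) [Field F] [NumberField F] [Field L]
  [NumberField L] [Algebra F L] (ζ d : F), IsPrimitiveRoot ζ p → Kum p F L d → ¬ IsPow p d →
  ∀ v : HeightOneSpectrum (𝓞 F), Lpw p v d →
  ∃ P : Fin p → HeightOneSpectrum (𝓞 L), Function.Injective P ∧ ∀ i, Ab v (P i)

/-- JOB NSB (uses `S_SUR`, `S_SPL`). A basis of the group of the `S`-units of norm `1`.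
Proof.  `P` = the primes of `L` above `S` (finite), `SUn L S = U_P` (`S_SUR`; `x ∈ SUn L S` iff `P.valuation x = 1` for all `P` above no element of `S`: every prime of `L` lies above exactly one prime of `F`), finitely generated, so
`NS L S ≤ SUn L S` is finitely generated: a basis `θ` modulo torsion, `h` = order of the torsion subgroup.  The norm maps `SUn L S` to `SUn F S` with kernel `NS L S`, so
`n ≥ rank (SUn L S) - rank (SUn F S) ≥ (r2(L) - 1 + #P) - (r2(F) - 1 + #S)`; `F`, `L` are totally complex (`p ≥ 3`, see `tot_complex` in `Pool/Agent/Q7/LK/Fin2.lean`), `r2(L) = p r2(F)`;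
`#P ≥ #S + (p-1) #{v ∈ S : Lpw p v d}` by `S_SPL` (and there is at least one prime above every `v`). -/
def S_NSB : Prop := ∀ (p : ℕ) [Fact p.Prime], p ≠ 2 → ∀ (F L : Type) [Field F] [NumberField F] [Field L]
  [NumberField L] [Algebra F L] (ζ d : F), IsPrimitiveRoot ζ p → Kum p F L d → ¬ IsPow p d →
  ∀ S : Set (HeightOneSpectrum (𝓞 F)), S.Finite →
  ∃ (n : ℕ) (θ : Fin n → Lˣ) (h : ℕ), IsBas L S θ h ∧ (p - 1) * (InfinitePlace.nrComplexPlaces F + sX p S d) ≤ n

/-- JOB DEP. The closure of a group of elements of norm `1` has at most the rank `(p-1) N_T` (`p`-adic pigeonhole principle).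
Proof.  Write `x ≡ 1 (N)` for `Nr p T N x`.  For `x` a unit at `T`, with `x ≡ 1 (2)`: `x^p ≡ 1 (N+1)` iff `x ≡ 1 (N)`, `N ≥ 2` (`x = 1 + y`, `x^p - 1 = p y (1 + ...)`, `P.valuation (x^p - 1) = P.valuation (p y)` as `y ≡ 0 (2)`, `p` odd).
There is an `h > 0` with `x^h ≡ 1 (2)` for all `x` which are units at `T` (the exponent of `(𝓞 L / p^2)ˣ`, or of the product over the primes above `T`).
Let `G_N` be the group of the `x ∈ Lˣ` with `N_{L/F} x = 1`, `x ≡ 1 (2)`, modulo those with `x ≡ 1 (N)`.  Claim: `#G_N ≤ p^((N-2)(p-1) N_T + N_T)` for `N ≥ 3`, `N_T = dT p T`.  Let `U_j(L) = {x ∈ Lˣ : x ≡ 1 (j)}`, `U_j(F)` likewise.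
`#(U_2(L) / U_N(L)) = ∏_(P above T) (N P)^(e_P (N-2)) = p^((N-2) p N_T)` (`∑_(P ∣ v) e_P f_P = p e_v f_v`).  The norm induces `U_2(L) / U_N(L) → U_2(F) / U_N(F)`; its image contains the `p`-th powers of `U_2(F)`, which fill
`U_3(F) / U_N(F)` (order of the image `≥ p^((N-3) N_T)`: the `p`-th power map `U_2(F)/U_(N-1)(F) → U_3(F)/U_N(F)` is injective).  The kernel has at most `p^((N-2) p N_T - (N-3) N_T)` elements and contains `G_N`.
(If `T` is empty everything is trivial: `a = e_1`, `m k = e_1`.)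
Now let `x_i = θ_i^h`, so `x_i ≡ 1 (2)`.  Fix `j`.  For `N` large the `p^((N-2) n)` vectors `e ∈ {0, .., p^(N-2) - 1}^n` are mapped to `∏ x_i^(e_i) ∈ G_N`, so some fibre has at least `p^((N-2) n - (N-2)(p-1) N_T - N_T) ≥ p^(N-2-N_T)` elements, more than
`p^(j n)`; so it contains `e, e'` with `e - e'` not divisible by `p^(N-2-j)` (otherwise the elements of the fibre are determined by `(e - e_0)/p^(N-2-j)`, at most `p^(jn)` up to a constant `2^n`: use residues modulo `p^(N-2-j)`):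
`e - e' = p^i b`, `b` not divisible by `p`, `i < N - 2 - j`.  `(∏ x^b)^(p^i) ≡ 1 (N)`, so `∏ x^b ≡ 1 (N - i)`, `N - i > j`.
So for every `j` there is a `b_j ∈ ℤ^n`, not divisible by `p`, with `∏ θ_i^(h b_j i) ≡ 1 (j)`.  `ℤ_p^n` is compact: a subsequence of the `b_j` converges to some `a ∈ ℤ_p^n`, not divisible by `p`, so `a ≠ 0`, and `h a ≠ 0` is a relation of the `θ_i`
(`m k = h b_(j_k)`). -/
def S_DEP : Prop := ∀ (p : ℕ) [Fact p.Prime], p ≠ 2 → ∀ (F L : Type) [Field F] [NumberField F] [Field L]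
  [NumberField L] [Algebra F L], Module.finrank F L = p →
  ∀ T : Set (HeightOneSpectrum (𝓞 F)), (∀ v ∈ T, Dp p v) → ∀ (n : ℕ) (θ : Fin n → Lˣ),
  (∀ i, Algebra.norm F ((θ i : Lˣ) : L) = 1 ∧ ∀ v ∈ T, Un v ((θ i : Lˣ) : L)) → (p - 1) * dT p T < n →
  ∃ a : Fin n → ℤ_[p], a ≠ 0 ∧ RelT p T θ a

/-- JOB RKR. The rank of the module of the relations.
Proof.  `R = {a : RelT p T θ a}` is a `ℤ_p`-submodule of `ℤ_p^n` (sums of the sequences; multiples by `c ∈ ℤ_p`: approximate `c` by integers and take a diagonal sequence, compare `Pool/Agent/Q123/LK/CR1A.lean`,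
`Pool/Agent/Q151/LKM/CR1AM.lean`; the products are units at `T`, which is only used in the form: `Nr p T N x`, `Nr p T N y` imply `Nr p T N (x y)`, `Nr p T N x⁻¹`, see the hypothesis `Un`).  Suppose that `R` does not contain `n - e` linearly independent elements: its rank is `r < n - e`.
Over `ℚ_p` choose a set `I` of `n - r` indices such that the `e_i`, `i ∈ I`, are independent modulo the span of `R` (exchange lemma), `n - r > e`; choose `e + 1` of them: `ι : Fin (e+1) → Fin n`.  By hypothesis `θ ∘ ι` has a nonzero relation; extended by `0` it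
is a nonzero element of `R` in the span of the `e_i`, `i ∈ I`: a contradiction. -/
def S_RKR : Prop := ∀ (p : ℕ) [Fact p.Prime] (F L : Type) [Field F] [NumberField F] [Field L]
  [NumberField L] [Algebra F L] (T : Set (HeightOneSpectrum (𝓞 F))), (∀ v ∈ T, Dp p v) → ∀ (n e : ℕ) (θ : Fin n → Lˣ),
  (∀ i, ∀ v ∈ T, Un v ((θ i : Lˣ) : L)) →
  (∀ ι : Fin (e + 1) → Fin n, Function.Injective ι → ∃ a : Fin (e + 1) → ℤ_[p], a ≠ 0 ∧ RelT p T (θ ∘ ι) a) →
  ∃ a : Fin (n - e) → Fin n → ℤ_[p], LinearIndependent ℤ_[p] a ∧ ∀ j, RelT p T θ (a j)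

/-- JOB OUT. Relations between elements of `NS L S` and relations of a basis.
Proof.  `ε_i^h = (∏ θ_j^(c_ij))^h`; if `b` is a relation of `ε` (`∏ ε^(m_k) → 1`) then `∏ θ_j^(h (m_k c)_j) → 1`, so `h (b c)` is a relation of `θ`.  The rows of the integral matrix `c` are independent over `ℤ` (`ε` independent), hence over `ℤ_p`
(compare `Pool/Agent/Q151/LKM/CR1AM.lean`), so `h a_j c` are independent.  (The elements of `NS L S` are units at `T` since `S`, `T` are disjoint.) -/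
def S_OUT : Prop := ∀ (p : ℕ) [Fact p.Prime] (F L : Type) [Field F] [NumberField F] [Field L]
  [NumberField L] [Algebra F L] (T S : Set (HeightOneSpectrum (𝓞 F))), (∀ v ∈ T, Dp p v) → Disjoint T S →
  ∀ (n : ℕ) (θ : Fin n → Lˣ) (h : ℕ), IsBas L S θ h → ∀ m : ℕ, DefH p T (NS L S) m → OutMS L p T S m

/-- JOB DFN. The defect of a group and of its norm group.
Proof.  Let `ε_1, .., ε_n ∈ H` be independent with relations `a_1, .., a_t`.  The norm group of `⟨ε⟩` has a basis `θ_1, .., θ_(n')` modulo torsion (in `H.map (nmU F)`), `N(ε_i)^h = (∏ θ_j^(c_ij))^h`.  A relation `b` of `ε` at `T` is a relation of the `N(ε_i)`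
(`x ≡ 1` modulo `p^N` at all primes above `v ∈ T` implies `σ x ≡ 1` for the conjugates, `N(x) = ∏ σ^i x ≡ 1`, and the valuations of `F` and `L` are comparable), so `h (b c)` is a relation of `θ`.  It remains to see that the `b c`, `b` one of the `a_j`, are independent: let `b ≠ 0` be in the
span of the `a_j` with `b c = 0`.  `b` is a combination over `ℤ_p` of integral vectors `e_1, .., e_r` with `e_l c = 0` (the kernel of `· c` on `ℤ_p^n` is generated by the kernel on `ℤ^n`, flatness), independent.  `N(∏_i ε_i^(h e_l i)) = 1`; so the elements `x_l = ∏_i ε_i^(h e_l i) ∈ H` have norm `1`, they are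
multiplicatively independent, and `b = ∑ b'_l e_l` gives the nonzero relation: `h b` is a relation of `ε`, `∏ ε^(m_k) → 1` with `m_k → h b`; write `m_k = ∑ m'_(k,l) h e_l + (rest → 0)`; to obtain `b'` as a relation of the `x_l` use that the relations form a submodule (module structure:
`RelT p T x a` iff, for all approximations `m_k → a`, `(∏ x^(m_k))^(h')` tends to `1`, `h'` the exponent of the units modulo `p` at `T`).  This contradicts `¬ DefH p T (H ⊓ ker) 1`. -/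
def S_DFN : Prop := ∀ (p : ℕ) [Fact p.Prime], p ≠ 2 → ∀ (F L : Type) [Field F] [NumberField F] [Field L]
  [NumberField L] [Algebra F L] (ζ d : F), IsPrimitiveRoot ζ p → Kum p F L d → ¬ IsPow p d →
  ∀ T : Set (HeightOneSpectrum (𝓞 F)), (∀ v ∈ T, Dp p v) → ∀ H : Subgroup Lˣ, (∀ x ∈ H, ∀ v ∈ T, Un v (x : L)) →
  ¬ DefH p T (H ⊓ (nmU F).ker) 1 → ∀ t : ℕ, DefH p T H t → DefH (L := F) p T (H.map (nmU F)) t

/-- JOB CR1S (uses `LK.S_LAM` = `LK.t_LAM`). `S`-units of relative norm `1` from relations.  Same proof as `LK.S_CR1BM` (`Pool/Agent/Q224/LK/CR1BM.lean`) with the group `NS L S` instead of the units of norm `1` (it is stable under `σ`), and with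
`Nr p T N` instead of `· - 1 ∈ J^N` (`Nr` is stable under `σ`, products, inverses of units at `T`). -/
def S_CR1S : Prop := ∀ (p : ℕ) [Fact p.Prime], p ≠ 2 → ∀ (F L : Type) [Field F] [NumberField F] [Field L]
  [NumberField L] [Algebra F L] (ζ d : F), IsPrimitiveRoot ζ p → Kum p F L d → ¬ IsPow p d →
  ∀ T S : Set (HeightOneSpectrum (𝓞 F)), (∀ v ∈ T, Dp p v) → Disjoint T S → ∀ m t : ℕ, OutMS L p T S m → (p - 1) * t < m + (p - 1) →
  ∀ σ : L ≃ₐ[F] L, σ ≠ 1 → OutWS p ζ T S σ t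

/-! ## The classes -/

/-- JOB CLA (uses `LK.S_BAS`, `LK.S_CPL`). The condition at `v ∈ T`, `d` a local `p`-th power.  Same proof as `LK.S_CR2LA` (see its docstring, `Pool/Agent/Q224/LK/CR2LA.lean`); `w`, `η` are only units at the primes above `v`.
(There the embeddings `τ_i : L → K = v.adicCompletion F` map elements that are units, resp. near `1`, at all primes above `v` to units, resp. elements near `1`: the valuation `v ∘ τ_i` of `L` is equivalent to that of a prime of `L` above `v`.) -/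
def S_CLA : Prop := ∀ (p : ℕ) [Fact p.Prime], p ≠ 2 → ∀ (F L : Type) [Field F] [NumberField F] [Field L]
  [NumberField L] [Algebra F L] (ζ d : F), IsPrimitiveRoot ζ p → Kum p F L d → ¬ IsPow p d →
  ∀ σ : L ≃ₐ[F] L, σ ≠ 1 → ∀ v : HeightOneSpectrum (𝓞 F), Dp p v → ∀ (w : Lˣ) (M : ℕ), Un v (w : L) →
  (∀ N : ℕ, ∃ η : Lˣ, Algebra.norm F (η : L) = 1 ∧ Un v (η : L) ∧ Nr p {v} N (((w * η ^ p) ^ p ^ M : Lˣ) : L)) →
  ∀ y : L, y ≠ 0 → (w : L) * y = σ y → Lpw p v d →
  ∃ ξ s : v.adicCompletion F, (∃ m : ℕ, ξ ^ p ^ m = 1) ∧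
    ((Algebra.norm F y : F) : v.adicCompletion F) * ξ = s ^ p

/-- JOB CLB (uses `LK.S_BAS`, `LK.S_CPL`). The condition at `v ∈ T`, `d` not a local `p`-th power.  Same proof as `LK.S_CR2LB` (see its docstring, `Pool/Agent/Q150/LK/CR2LB.lean`); `w`, `η` are only units at the (unique) prime above `v`
(to bound the coordinates multiply by an element of `𝓞 F` outside `v` which makes them integral: it is a unit at `v`). -/
def S_CLB : Prop := ∀ (p : ℕ) [Fact p.Prime], p ≠ 2 → ∀ (F L : Type) [Field F] [NumberField F] [Field L]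
  [NumberField L] [Algebra F L] (ζ d : F), IsPrimitiveRoot ζ p → Kum p F L d → ¬ IsPow p d →
  ∀ σ : L ≃ₐ[F] L, σ ≠ 1 → ∀ v : HeightOneSpectrum (𝓞 F), Dp p v → ∀ (w : Lˣ) (M : ℕ), Un v (w : L) →
  (∀ N : ℕ, ∃ η : Lˣ, Algebra.norm F (η : L) = 1 ∧ Un v (η : L) ∧ Nr p {v} N (((w * η ^ p) ^ p ^ M : Lˣ) : L)) →
  ∀ y : L, y ≠ 0 → (w : L) * y = σ y → ¬ Lpw p v d → ∃ j : ℕ, Lpw p v (Algebra.norm F y * d ^ j)

/-- JOB CTS (uses `LK.S_BAS`). The conditions outside `p`.  Same proof as `LK.S_CR2T` (`Pool/Agent/Q224/LK/CR2T.lean`); `w` is only a unit at the primes above `v`. -/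
def S_CTS : Prop := ∀ (p : ℕ) [Fact p.Prime], p ≠ 2 → ∀ (F L : Type) [Field F] [NumberField F] [Field L]
  [NumberField L] [Algebra F L] (ζ d : F), IsPrimitiveRoot ζ p → Kum p F L d → ¬ IsPow p d →
  ∀ σ : L ≃ₐ[F] L, σ ≠ 1 → ∀ v : HeightOneSpectrum (𝓞 F), ¬ Dp p v → ∀ w : L, Un v w →
  ∀ y : L, y ≠ 0 → w * y = σ y →
  (vl p v d = 0 → vl p v (Algebra.norm F y) = 0) ∧
  (vl p v d ≠ 0 → ∃ j : ℕ, Lpw p v (Algebra.norm F y * d ^ j))

/-- JOB CUS (uses `LK.S_BAS`, `LK.S_CPL`). The classes at the places above `p` without condition.  Same proof as `LK.S_CR2U` (`Pool/Agent/Q14/LK/CR2U.lean`); `w` is only a unit at the primes above `v`. -/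
def S_CUS : Prop := ∀ (p : ℕ) [Fact p.Prime], p ≠ 2 → ∀ (F L : Type) [Field F] [NumberField F] [Field L]
  [NumberField L] [Algebra F L] (ζ d : F), IsPrimitiveRoot ζ p → Kum p F L d → ¬ IsPow p d →
  ∀ σ : L ≃ₐ[F] L, σ ≠ 1 → ∀ v : HeightOneSpectrum (𝓞 F), ∀ w : L, Un v w →
  ∀ y : L, y ≠ 0 → w * y = σ y → AU p v d (Algebra.norm F y)

/-- JOB NSP (uses `LK.S_BAS`, `LK.S_CPL`). At a prime which is not completely split elements of norm `1` are units.
Proof.  `G = Gal(L/F)`, of order `p`, is transitive on the primes of `L` above `v`: there are `1` or `p` of them.  If there is only one, `P`, then `P.valuation (σ^i w) = P.valuation w` for all `i` and `P.valuation w ^ p = P.valuation (N w) = 1`.  If there are `p` then `e = f = 1` (`∑ e f = p`), so for the prime `P`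
`𝓞 F / v^n → 𝓞 L / P^n` is an isomorphism, and for every `n` there is an `x ∈ F` with `P.valuation (ρ x - 1) < exp(-n)` (`ρ^p = d`): `P.valuation (d x^p - 1)` is small, and `P.valuation = v.valuation` on `F`: `Lpw p v d`. -/
def S_NSP : Prop := ∀ (p : ℕ) [Fact p.Prime], p ≠ 2 → ∀ (F L : Type) [Field F] [NumberField F] [Field L]
  [NumberField L] [Algebra F L] (ζ d : F), IsPrimitiveRoot ζ p → Kum p F L d → ¬ IsPow p d →
  ∀ v : HeightOneSpectrum (𝓞 F), ¬ Lpw p v d → ∀ w : L, Algebra.norm F w = 1 → Un v w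

/-- JOB CR2S (uses `S_CLA`, `S_CLB`, `S_CTS`, `S_CUS`, `S_NSP`). The classes of the `S`-units.
Same proof as `LK.S_CR2M` (`Pool/Agent/Q224/LK/CR2M.lean`, `Pool/Agent/Q22/LK/Cr2i.lean`): for `c ∈ {0, .., p-1}^t`, `c ≠ 0`: `w_c = ∏ w_i^(c_i)`, `σ(y_i) = w_i y_i` (Hilbert 90), `y_c = ∏ y_i^(c_i)`, `a_c = N(y_c)`.  Local conditions `AX p T S d v a_c`: `v ∈ T`: `S_CLA`, `S_CLB` (`w_c`, `η ∈ NS L S` are units above `T`;
`Nr p T N` implies `Nr p {v} N`); `v ∉ T` and not (`v ∈ S` and `Lpw p v d`): `w_c` is a unit above `v`, for `v ∉ S` since `w_c ∈ NS L S`, for `v ∈ S`, `¬ Lpw p v d` by `S_NSP`; then `S_CUS` resp. `S_CTS`.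
Independence: if `a_c / a_c' * d^j = t^p` then `y' = (y_c / y_c') ρ^j / t` has norm `1` (`N(ρ) = d`, `p` odd) and `σ(y') = w_c w_c'⁻¹ ζ'^j y'`.  `y' ∈ NS L S`: for `v ∉ S` the element `w_c w_c'⁻¹ ζ'^j` is a unit above `v`, so all conjugates of `y'` have the same valuation at `P` above `v`, and their product is `1`.
So `(∏ w_i^(c_i - c'_i)) y' = ζ'^(-j) σ(y')`, `ζ'` a power of `ζ`: contradiction to `OutWS` (`c - c'` is not divisible by `p`). -/
def S_CR2S : Prop := ∀ (p : ℕ) [Fact p.Prime], p ≠ 2 → ∀ (F L : Type) [Field F] [NumberField F] [Field L]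
  [NumberField L] [Algebra F L] (ζ d : F), IsPrimitiveRoot ζ p → Kum p F L d → ¬ IsPow p d →
  ∀ T S : Set (HeightOneSpectrum (𝓞 F)), (∀ v ∈ T, Dp p v) → Disjoint T S → ∀ (t : ℕ) (σ : L ≃ₐ[F] L), σ ≠ 1 → OutWS p ζ T S σ t →
  ManyL p T S d (p ^ t - 1)

/-! ## The engine with local conditions at all small places -/

/-- JOB AAN (uses `LK.S_BAS`). The number of the classes with the local conditions.  Template `LK.S_AA` (`Pool/Agent/Q265/LK/AA.lean`).
Proof.  For every `v` with `Sm y v` (finitely many) the elements of `B` have at most `p ^ (c v + 1)` classes modulo the local `p`-th powers at `v` (`LocN.num`; `Lpw v (b / b')` is an equivalence relation on nonzero elements).  If `b, b'` have the same class at all small `v` then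
`Nn p y (b / b')`.  So `#B ≤ ∏_(Sm y v) p ^ (c v + 1)`. -/
def S_AAN : Prop := ∀ (p : ℕ) [Fact p.Prime] (F : Type) [Field F] [NumberField F] (y : ℕ) (D0 : F)
  (A : HeightOneSpectrum (𝓞 F) → F → Prop) (c : HeightOneSpectrum (𝓞 F) → ℕ), LocN p y D0 A c →
  {v : HeightOneSpectrum (𝓞 F) | Sm y v}.Finite →
  ∀ B : Finset F, (∀ b ∈ B, b ≠ 0 ∧ ∀ v, Sm y v → A v b) → (∀ b ∈ B, ∀ b' ∈ B, b ≠ b' → ¬ Nn p y (b / b')) →
  B.card ≤ p ^ (nS F y + ∑ᶠ v, c v)

/-- JOB EEN (uses `S_AAN`, `LK.S_BAS`). The local classes.  Template `LK.S_EE` (`Pool/Agent/Q14/LK/EE.lean`).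
Proof.  `E` = the set of the classes `x` (`Base.cls`) of the `a ≠ 0` with `A v a` for all small `v`.  Choose one `a_x` for every `x ∈ E`; `Nn p y (a_x / a_x')` implies `x = x'`; `S_AAN`: `#E ≤ p^(#S + C)`, `C = ∑ c v`, and `#S + r2 ≤ f`. -/
def S_EEN : Prop := ∀ (p : ℕ) [Fact p.Prime] (F : Type) [Field F] [NumberField F] (ζ : F), IsPrimitiveRoot ζ p →
  ∀ (y f : ℕ) (u r : Fin f → F)
  (π : HeightOneSpectrum (𝓞 F) → F) (g : (Fin f → ZMod p) → (Fin f → ZMod p) → ZMod p),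
  Base p ζ y f u r π g → InfinitePlace.nrComplexPlaces F + nS F y ≤ f →
  {v : HeightOneSpectrum (𝓞 F) | Sm y v}.Finite →
  ∀ (D0 : F) (A : HeightOneSpectrum (𝓞 F) → F → Prop) (c : HeightOneSpectrum (𝓞 F) → ℕ), D0 ≠ 0 → LocN p y D0 A c →
  ∃ E : Finset ((Fin f → ZMod p) × (Fin f → ZMod p)),
    (∀ a x, a ≠ 0 → (∀ v, Sm y v → A v a) → Nn p y (a * mon r x.1 * mon u x.2) → x ∈ E) ∧
    (E.card : ℝ) / (p : ℝ) ^ f ≤ (p : ℝ) ^ (∑ᶠ v, c v) * (1 / (p : ℝ)) ^ InfinitePlace.nrComplexPlaces F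

open Classical in
/-- JOB SH2N (uses `LK.S_BAS`, `LK.S_SH1`). The solutions of the table, many classes.  Same proof as `LK.S_SH2M` (`Pool/Agent/Q153/LK/SH2M.lean`): the `a i`, normalised by a power `D^t` such that `vl (q 0) = 0`; `A v (a D^t)` at the small places by `LocN.clo` and
`LocN.mul` (`D / D0` is a local `p`-th power); at the places which are not small `CondX.unr`, `CondX.ram`, `Fits.ram`. -/
def S_SH2N : Prop := ∀ (p : ℕ) [Fact p.Prime] (F : Type) [Field F] [NumberField F] (ζ : F), IsPrimitiveRoot ζ p →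
  ∀ (y f : ℕ) (u r : Fin f → F)
  (π : HeightOneSpectrum (𝓞 F) → F) (g : (Fin f → ZMod p) → (Fin f → ZMod p) → ZMod p),
  Base p ζ y f u r π g → ∀ (D0 : F) (A : HeightOneSpectrum (𝓞 F) → F → Prop) (c : HeightOneSpectrum (𝓞 F) → ℕ),
  LocN p y D0 A c → ∀ (ψ w : Fin f → ZMod p), D0 ≠ 0 → Nn p y (D0 * mon r ψ * mon u w) →
  ∀ (k : ℕ) (z : Fin k → ZMod p) (q : Fin k → HeightOneSpectrum (𝓞 F)), 1 ≤ k → (∀ i, z i ≠ 0) →
  Function.Injective q → (∀ i, ¬ Sm y (q i)) →
  ∀ τ : Tab p f k, Tb ζ u π τ q → ∀ E : Finset ((Fin f → ZMod p) × (Fin f → ZMod p)),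
  (∀ a x, a ≠ 0 → (∀ v, Sm y v → A v a) → Nn p y (a * mon r x.1 * mon u x.2) → x ∈ E) →
  ∀ D : F, Fits p y D0 z q D → ∀ N : ℕ, ManyX p y A D N →
  N ≤ ((univ : Finset ((Fin f → ZMod p) × (Fin k → ZMod p))).filter
        (fun x => IsSol g w z E τ x)).card

/-- JOB MEANN (uses `S_EEN`, `S_SH2N`; `LK.t_BASE`, `LK.t_LOC`, `LK.t_SH1`, `LK.t_COUNT`, `LK.t_NEST`, and `EN.S_TRF` = `Pool.Agent.Q265.EN.trf t_NEST t_SH1`). The mean of the number of the classes.
Proof.  `(ψ, w)` = the class of `D0` (`Base.cls`), `E` from `S_EEN`, `μ = p^C (1/p)^r2`.  For `q ∈ B` with the table `τ` (`∑ z_j φ_j = ψ` by `LK.S_SH1`) `N q ≤ n(τ)`, the number of the solutions (`S_SH2N`), so `∑_(q ∈ B) N q ≤ ∑_(q ∈ Ens) n(τ_q) = ∑_m m #{q ∈ Ens : n(τ_q) = m}`, `m ≤ p^(f+k)`, and by `EN.S_TRF` with `P τ = (n(τ) = m)` for all these `m`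
at once, with an `ε'` small in terms of `k`, this is at most `#Ens (mean of n(τ) over the tables with ∑ z_j φ_j = ψ + small)`, the mean is `≤ #E / p^f + p^f p / p^k ≤ μ + ε/2` by `LK.S_COUNT`, for `k ≥ k0`.  Compare the last part of `EN.S_LAWX` (`Pool/Agent/Q150/EN/LAWX.lean`) and
`Pool/Agent/Q193/LK/Sharem.lean`. -/
def S_MEANN : Prop := ∀ (p : ℕ) [Fact p.Prime], p ≠ 2 → ∀ (F : Type) [Field F] [NumberField F] (ζ : F),
  IsPrimitiveRoot ζ p → ∃ y0 : ℕ, ∀ y, y0 ≤ y → ∀ D0 : F, D0 ≠ 0 →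
  ∀ (A : HeightOneSpectrum (𝓞 F) → F → Prop) (c : HeightOneSpectrum (𝓞 F) → ℕ), LocN p y D0 A c → ∀ ε : ℝ, 0 < ε →
  ∃ k0 : ℕ, ∀ k, k0 ≤ k → ∀ z : Fin k → ZMod p, (∀ i, z i ≠ 0) → Nest k fun X =>
    (Box y X : Set (Fin k → HeightOneSpectrum (𝓞 F))).Finite ∧
    0 < ((Ens p y D0 z X).ncard : ℝ) ∧
    ∀ (B : Finset (Fin k → HeightOneSpectrum (𝓞 F))) (N : (Fin k → HeightOneSpectrum (𝓞 F)) → ℕ),
      (∀ q ∈ B, q ∈ Ens p y D0 z X) →
      (∀ q ∈ B, ∃ D, Fits p y D0 z q D ∧ ManyX p y A D (N q)) →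
      ∑ q ∈ B, (N q : ℝ) ≤ ((p : ℝ) ^ (∑ᶠ v, c v) * (1 / (p : ℝ)) ^ InfinitePlace.nrComplexPlaces F + ε) *
        ((Ens p y D0 z X).ncard : ℝ)

/-- JOB LCN (uses `LK.S_BAS`, `LK.t_ATL`, `LK.t_AUN`, `LK.t_AUC`, `LK.t_LOCV`). The local classes `AX`.
Proof.  `y ≥ p`, so the `v ∈ T` are small.  `ne`: clear.  `mul`, `clo`: for `v ∈ T` from `LK.t_ATL` (`Loc.mul`, `Loc.clo`); `AU`: `LK.t_AUC`; `Ao`: `S_BAS` (`vl p v (a D0) = vl p v a + vl p v D0`; `a D0^j` is `Lpw`, so `(a D0) D0^(j')` with `j' = j + (p - 1)`, `D0^p` is `Lpw`).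
`num`: `v ∈ T`: `Loc.num` with `c = 0`.  `v ∉ T`, `v ∈ S` and `Lpw p v D0`: `LK.t_LOCV`, `p^(2 + dv)`.  Other `v` above `p`: `LK.t_AUN`.  Other `v ∤ p`: `dv p v = 0`, at most `p` classes: `vl p v D0 = 0`: the classes are given by `sy` (`S_BAS` (7)); `vl p v D0 ≠ 0`: `b` is equivalent to some `(D0^j)⁻¹` (see
`Pool/Agent/Q265/LK/AA.lean`). -/
def S_LCN : Prop := ∀ (p : ℕ) [Fact p.Prime], p ≠ 2 → ∀ (F : Type) [Field F] [NumberField F] (ζ : F),
  IsPrimitiveRoot ζ p → ∀ y : ℕ, p ≤ y → ∀ T S : Set (HeightOneSpectrum (𝓞 F)), (∀ v ∈ T, Dp p v) → Disjoint T S →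
  ∀ D0 : F, D0 ≠ 0 → LocN p y D0 (fun v a => AX p T S D0 v a) (cX p y T S D0)

/-- JOB SUMC (uses `LK.t_LOC` for the finiteness of the set of the small places). The sum of the exponents.
Proof.  `cX = 0` on `T`; for small `v ∉ T` `cX v = dv p v + [v ∈ S ∧ Lpw p v D0]`.  `∑_(v ∣ p) dv p v = [F : ℚ] = 2 r2` (`Ideal.sum_ramification_inertia`; see `Pool.Agent.Q190.EN.val`, `Pool/Agent/Q7/LK/Sum.lean`, `CE.S_ESUM`; `F` is totally complex). -/
def S_SUMC : Prop := ∀ (p : ℕ) [Fact p.Prime], p ≠ 2 → ∀ (F : Type) [Field F] [NumberField F] (ζ : F),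
  IsPrimitiveRoot ζ p → ∀ y : ℕ, p ≤ y → ∀ T S : Set (HeightOneSpectrum (𝓞 F)), (∀ v ∈ T, Dp p v) → Disjoint T S →
  (∀ v ∈ S, Sm y v) → ∀ D0 : F, D0 ≠ 0 →
  (∑ᶠ v, cX p y T S D0 v) + dT p T ≤ 2 * InfinitePlace.nrComplexPlaces F + sX p S D0

/-- JOB BRG (uses `LK.S_BAS`, `LK.t_ATL`, `LK.t_AUC`). From the conditions for `D` to the conditions for `D0`.
Proof.  `D / D0` is `Lpw` at the small places: `AX p T S D v a` implies `AX p T S D0 v a` (`Loc.inv` of `LK.t_ATL`, `LK.t_AUC` (2); `Lpw p v D ↔ Lpw p v D0`; `vl p v D = vl p v D0`).  `v` not small: `v ∤ p` (`p ≤ y`), `v ∉ T`, `v ∉ S`: `Ao p v D a`, which is `CondX.unr`, `CondX.ram`. -/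
def S_BRG : Prop := ∀ (p : ℕ) [Fact p.Prime], p ≠ 2 → ∀ (F : Type) [Field F] [NumberField F] (ζ : F),
  IsPrimitiveRoot ζ p → ∀ y : ℕ, p ≤ y → ∀ T S : Set (HeightOneSpectrum (𝓞 F)), (∀ v ∈ T, Dp p v) → Disjoint T S →
  (∀ v ∈ S, Sm y v) → ∀ D0 : F, D0 ≠ 0 → ∀ (k : ℕ) (z : Fin k → ZMod p) (q : Fin k → HeightOneSpectrum (𝓞 F)) (D : F),
  Fits p y D0 z q D → sX p S D = sX p S D0 ∧
    ∀ N : ℕ, ManyL p T S D N → ManyX p y (fun v a => AX p T S D0 v a) D N

end Pool.Agent.Q7.LS
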