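import Pool.Agent.Q7.LS.Stm
import Pool.Agent.W289.SL.Defs

/-!
# Project LS (helper7): relations at `T` and `p`-adic logarithms (jobs LOGA, LOGB)

`RelT` (`Pool/Agent/Q7/LS/Def.lean`) is defined by sequences; these two jobs compare it with linear relations between the Iwasawa logarithms at the embeddings of `L` above `T`.
Templates: `Pool/Agent/Y419/LC/LCP.lean` (general `p`; `exists_c`, `exists_inv`, `descent`, `dist_le`: for algebraic integers `≡ 1` modulo `p^4`), `Pool/Agent/Q1/LK/SA.lean`, `Sg0.lean` (`p = 2`, `sol_descent`, `exists_d`, `idem`, `t_A`),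
`Pool/Agent/Q22/LK/Sga.lean` (odd `p`), `Pool/Agent/W289/SL/Emb.lean`.
-/

set_option autoImplicit false

namespace Pool.Agent.Q7.LS

open NumberField IsDedekindDomain Filter Topology Finset
open Pool.Agent.Q7.LK
open Pool.Agent.W289.SL (IsIwasawaLog)

/-- the embedding `σ` of `L` lies above an element of `T` -/
def OvT {p : ℕ} [Fact p.Prime] {F : Type} [Field F] [NumberField F] {L : Type} [Field L] [NumberField L] [Algebra F L]
    (T : Set (HeightOneSpectrum (𝓞 F))) (σ : L →+* ℂ_[p]) : Prop :=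
  ∃ v ∈ T, ∀ x ∈ v.asIdeal, ‖σ (algebraMap F L (x : F))‖ < 1

/-- JOB LOGA. A relation `RelT` is a linear relation between the logarithms at the embeddings above `T`.
Proof.  Let `σ` be above `v ∈ T`, `P = {x ∈ 𝓞 L : ‖σ x‖ < 1}`, a prime above `v`; `P.valuation z ≤ 1` implies `‖σ z‖ ≤ 1` (`z = a / b` with `a, b ∈ 𝓞 L`, `b ∉ P`).  So `Nr p T N x` implies `‖σ x - 1‖ ≤ p^(-N)`.
With `x_k = ∏ θ_i^(m k i)`: `σ x_k → 1`, so `Lg (σ x_k) = ∑ m_k i Lg (σ θ_i) → 0` (power series, `dist_le` of LCP.lean), and `m k i → a i` in `ℤ_p`. -/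
def S_LOGA : Prop := ∀ (p : ℕ) [Fact p.Prime] (F L : Type) [Field F] [NumberField F] [Field L]
  [NumberField L] [Algebra F L] (T : Set (HeightOneSpectrum (𝓞 F))), (∀ v ∈ T, Dp p v) →
  ∀ Lg : ℂ_[p] → ℂ_[p], IsIwasawaLog p Lg → ∀ (n : ℕ) (θ : Fin n → Lˣ) (a : Fin n → ℤ_[p]), RelT p T θ a →
  ∀ σ : L →+* ℂ_[p], OvT T σ → ∑ i, ((a i : ℚ_[p]) : ℂ_[p]) * Lg (σ ((θ i : Lˣ) : L)) = 0

/-- JOB LOGB. From `ℂ_p`-linear relations between the logarithms at the embeddings above `T` to relations `RelT`.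
Proof.  Let `h > 0` with `x_i = θ_i^h ≡ 1` modulo `p^4` at all primes of `L` above `T` (exponent of the units modulo `p^4`).  Write `x_i = a_i / s` with `a_i, s ∈ 𝓞 L`, `s` a unit at the primes above `T`, and (multiply by a suitable element) `s ≡ 1`, so `a_i ≡ 1` modulo `p^4`
at the primes above `T`.  For `a ∈ 𝓞 L` with `a ≡ 1` modulo `p^4` at `T` there are `c_j ∈ ℚ_p` with `Lg (σ a) = ∑_j c_j σ(ω_j)` for all `σ` above `T` and `∑_j c_j σ(ω_j) = 0` for the other `σ` (`ω` the integral basis of `𝓞 L`): choose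
`a^(N) ∈ 𝓞 L` with `a^(N) ≡ a` modulo `p^N` at the primes above `T` and `≡ 1` modulo `p^N` at the other primes above `p` (CRT), `N ≥ 4`; `exists_c` (LCP.lean) gives `c^(N)` with `Lg (σ a^(N)) = ∑ c^(N)_j σ(ω_j)` for all `σ`; the left side converges to
`Lg (σ a)`, resp. `0`, so (`exists_inv`: the matrix `σ(ω_j)` is invertible) `c^(N)` converges, and its limit is in `ℚ_p`.  So with `d_i = c(a_i) - c(s)`: `Lg (σ x_i) = ∑_j d_ij σ(ω_j)` above `T`, `0 = ∑_j d_ij σ(ω_j)` otherwise.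
The conditions on `A j` say `∑_i A_ji d_ij' = 0` for all `j'` (`exists_inv`), so by `sol_descent` (`Q1/LK/SA.lean`) there are `t` independent solutions over `ℚ_p`; clear denominators: `b j ∈ (ℤ_p)^n`.
For such a `b` and integral `m_k → b`, `u_k = ∏ x_i^(m_k i)`: `Lg (σ u_k) → 0` for `σ` above `T`, and `u_k ≡ 1` modulo `p^4` at `T`, so `σ u_k → 1` (`dist_le` of LCP.lean: `‖z - 1‖ ≤ ‖Lg z‖` up to a constant, near `1`).  For every prime `P` of `L` above `v ∈ T` there is a `σ : L → ℂ_p` with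
`‖σ x‖ < 1` iff `P.valuation x < 1` (see `W289/SL/Emb.lean`), so `Nr p T N u_k` for large `k`.  The relation for `θ` is `h b`. -/
def S_LOGB : Prop := ∀ (p : ℕ) [Fact p.Prime], p ≠ 2 → ∀ (F L : Type) [Field F] [NumberField F] [Field L]
  [NumberField L] [Algebra F L] (T : Set (HeightOneSpectrum (𝓞 F))), (∀ v ∈ T, Dp p v) →
  ∀ Lg : ℂ_[p] → ℂ_[p], IsIwasawaLog p Lg → ∀ (n : ℕ) (θ : Fin n → Lˣ), (∀ i, ∀ v ∈ T, Un v ((θ i : Lˣ) : L)) →
  ∀ (t : ℕ) (A : Fin t → Fin n → ℂ_[p]), LinearIndependent ℂ_[p] A →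
  (∀ (j : Fin t) (σ : L →+* ℂ_[p]), OvT T σ → ∑ i, A j i * Lg (σ ((θ i : Lˣ) : L)) = 0) →
  ∃ b : Fin t → Fin n → ℤ_[p], LinearIndependent ℤ_[p] b ∧ ∀ j, RelT p T θ (b j)

end Pool.Agent.Q7.LS
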