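import Pool.Agent.Q7.LS.All
import Pool.Agent.Q7.LS.Stm2
import Pool.Agent.Q190.LS.DEP
import Pool.Agent.Q26.LS.LOGA
import Pool.Agent.Q79.LS.LOGB

/-!
# Project LS (helper7): the last parts
-/

set_option autoImplicit false

namespace Pool.Agent.Q7.LS

theorem t_DEP : S_DEP := Pool.Agent.Q190.LS.dep
theorem t_LOGA : S_LOGA := Pool.Agent.Q26.LS.loga
theorem t_LOGB : S_LOGB := Pool.Agent.Q79.LS.logb

end Pool.Agent.Q7.LS
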