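import Pool.Agent.Q7.LS.Stm
import Pool.Agent.Q7.LK.Fin2
import Pool.Agent.Q150.LK.HS1A0

/-!
# Project LS (helper7): assembly

The share of the extensions `L = F(D^(1/p))` for which the group of the `S`-units of relative norm `1` has more relations at the
places above `T` than it must have.
-/

set_option autoImplicit false
set_option linter.unusedSectionVars false

namespace Pool.Agent.Q7.LS

open NumberField IsDedekindDomain Filter Topology Finset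
open Pool.Agent.Q283.LQ (Sm Box Nest nS)
open Pool.Agent.Q7.LK
open Pool.Agent.Q283.EN (CondX)

section L

variable {F : Type} [Field F] [NumberField F] {L : Type} [Field L] [NumberField L] [Algebra F L]

/-- `H` contains `R` elements which are independent over the `p`-adic integers at the places above `T` -/
def IndH (p : ℕ) [Fact p.Prime] (T : Set (HeightOneSpectrum (𝓞 F))) (H : Subgroup Lˣ) (R : ℕ) : Prop :=
  ∃ ε : Fin R → Lˣ, (∀ i, ε i ∈ H) ∧ ∀ a : Fin R → ℤ_[p], RelT p T ε a → a = 0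

theorem outMS_mono {p : ℕ} [Fact p.Prime] {T S : Set (HeightOneSpectrum (𝓞 F))} {m m' : ℕ} (h : m' ≤ m)
    (ho : OutMS L p T S m) : OutMS L p T S m' := by
  obtain ⟨n, θ, h0, hB, a, ha, hr⟩ := ho
  exact ⟨n, θ, h0, hB, fun j => a (Fin.castLE h j), ha.comp _ (Fin.castLE_injective h), fun j => hr _⟩

theorem un_of_NS {T S : Set (HeightOneSpectrum (𝓞 F))} (hTS : Disjoint T S) {x : Lˣ} (hx : x ∈ NS L S) :
    ∀ v ∈ T, Un v (x : L) := fun v hv => hx.1 v (Set.disjoint_left.mp hTS hv)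

theorem norm_of_NS {S : Set (HeightOneSpectrum (𝓞 F))} {x : Lˣ} (hx : x ∈ NS L S) : Algebra.norm F (x : L) = 1 := by
  have h := MonoidHom.mem_ker.mp hx.2
  simpa [nmU] using congrArg Units.val h

/-- few independent elements: many relations of a basis -/
theorem out_of_rank (hNSB : S_NSB) (hRKR : S_RKR) {p : ℕ} [Fact p.Prime] (hp : p ≠ 2) {ζ d : F}
    (hζ : IsPrimitiveRoot ζ p) (hK : Kum p F L d) (hd : ¬ IsPow p d) {T S : Set (HeightOneSpectrum (𝓞 F))}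
    (hT : ∀ v ∈ T, Dp p v) (hTS : Disjoint T S) (hS : S.Finite) {R M : ℕ} (hR : ¬ IndH p T (NS L S) R)
    (hM : M + R ≤ (p - 1) * (InfinitePlace.nrComplexPlaces F + sX p S d) + 1) : OutMS L p T S M := by
  obtain ⟨n, θ, h, hB, hn⟩ := hNSB p hp F L ζ d hζ hK hd S hS
  rcases R with _ | R
  · exfalso
    exact hR ⟨fun i => i.elim0, fun i => i.elim0, fun a _ => Subsingleton.elim _ _⟩
  · have h1 : ∀ ι : Fin (R + 1) → Fin n, Function.Injective ι →
        ∃ a : Fin (R + 1) → ℤ_[p], a ≠ 0 ∧ RelT p T (θ ∘ ι) a := by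
      intro ι _
      unfold IndH at hR
      push Not at hR
      obtain ⟨a, ha, ha0⟩ := hR (θ ∘ ι) (fun i => hB.2.1 _)
      exact ⟨a, ha0, ha⟩
    obtain ⟨a, ha, hr⟩ := hRKR p F L T hT n R θ (fun i v hv => un_of_NS hTS (hB.2.1 i) v hv) h1
    exact outMS_mono (by omega) ⟨n, θ, h, hB, a, ha, hr⟩

/-- the closure has at most the rank `(p - 1) N_T` -/
theorem not_ind (hDEP : S_DEP) {p : ℕ} [Fact p.Prime] (hp : p ≠ 2) (hdeg : Module.finrank F L = p)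
    {T S : Set (HeightOneSpectrum (𝓞 F))} (hT : ∀ v ∈ T, Dp p v) (hTS : Disjoint T S) :
    ¬ IndH p T (NS L S) ((p - 1) * dT p T + 1) := by
  rintro ⟨ε, hε, hi⟩
  obtain ⟨a, ha, hr⟩ := hDEP p hp F L hdeg T hT _ ε (fun i => ⟨norm_of_NS (hε i), un_of_NS hTS (hε i)⟩)
    (Nat.lt_succ_self _)
  exact ha (hi a hr)

/-- a group with a larger defect than its norm group -/
theorem out_of_def (hDFN : S_DFN) (hOUT : S_OUT) (hNSB : S_NSB) {p : ℕ} [Fact p.Prime] (hp : p ≠ 2) {ζ d : F}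
    (hζ : IsPrimitiveRoot ζ p) (hK : Kum p F L d) (hd : ¬ IsPow p d) {T S : Set (HeightOneSpectrum (𝓞 F))}
    (hT : ∀ v ∈ T, Dp p v) (hTS : Disjoint T S) (hS : S.Finite) {H : Subgroup Lˣ} (hH : H ≤ SUn L S) {t : ℕ}
    (h1 : DefH p T H t) (h2 : ¬ DefH (L := F) p T (H.map (nmU F)) t) : OutMS L p T S 1 := by
  obtain ⟨n, θ, h, hB, _⟩ := hNSB p hp F L ζ d hζ hK hd S hS
  refine hOUT p F L T S hT hTS n θ h hB 1 ?_
  by_contra hc
  refine h2 (hDFN p hp F L ζ d hζ hK hd T hT H (fun x hx v hv => hH hx v (Set.disjoint_left.mp hTS hv)) ?_ t h1)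
  rintro ⟨n', ε, hε, hi, a, ha, hr⟩
  exact hc ⟨n', ε, fun i => ⟨hH (hε i).1, (hε i).2⟩, hi, a, ha, hr⟩

end L

/-- the absolute value of `m - n` -/
def gp (m n : ℕ) : ℕ := (m - n) + (n - m)

theorem many_of_out (hCR1 : S_CR1S) (hCR2 : S_CR2S) (hBRG : S_BRG) {p : ℕ} [Fact p.Prime] (hp : p ≠ 2) {F : Type}
    [Field F] [NumberField F] {ζ : F} (hζ : IsPrimitiveRoot ζ p) {y : ℕ} (hy : p ≤ y)
    {T S : Set (HeightOneSpectrum (𝓞 F))} (hT : ∀ v ∈ T, Dp p v) (hTS : Disjoint T S) (hS : ∀ v ∈ S, Sm y v)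
    {D0 : F} (hD0 : D0 ≠ 0) {k : ℕ} {z : Fin k → ZMod p} {q : Fin k → HeightOneSpectrum (𝓞 F)} {D : F}
    (hD : Fits p y D0 z q D) (hnp : ¬ IsPow p D) {L : Type} [Field L] [NumberField L] [Algebra F L]
    (hK : Kum p F L D) {m t : ℕ} (ho : OutMS L p T S m) (hmt : (p - 1) * t < m + (p - 1)) :
    ManyX p y (fun v a => AX p T S D0 v a) D (p ^ t - 1) := by
  have hgal : IsGalois F L := kum_galois hζ hK hnp
  have hfd : FiniteDimensional F L := Module.Finite.of_restrictScalars_finite ℚ F L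
  have hcard : Nat.card (L ≃ₐ[F] L) = p := by
    rw [IsGalois.card_aut_eq_finrank, hK.deg]
  obtain ⟨σ, hσ⟩ : ∃ σ : L ≃ₐ[F] L, σ ≠ 1 := by
    by_contra hc
    push Not at hc
    have : Subsingleton (L ≃ₐ[F] L) := ⟨fun a b => by rw [hc a, hc b]⟩
    have h1 := Nat.card_of_subsingleton (1 : L ≃ₐ[F] L)
    rw [hcard] at h1
    exact (Fact.out : p.Prime).one_lt.ne' h1
  have h1 := hCR1 p hp F L ζ D hζ hK hnp T S hT hTS m t ho hmt σ hσ
  have h2 := hCR2 p hp F L ζ D hζ hK hnp T S hT hTS t σ hσ h1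
  exact (hBRG p hp F ζ hζ y hy T S hT hTS hS D0 hD0 k z q D hD).2 _ h2

/-- The share of the `L` whose `S`-units of relative norm `1` have more relations at `T` than they must have -/
def S_SHARES : Prop := ∀ (p : ℕ) [Fact p.Prime], p ≠ 2 → ∀ (F : Type) [Field F] [NumberField F] (ζ : F),
  IsPrimitiveRoot ζ p → ∃ y0 : ℕ, ∀ y, y0 ≤ y → ∀ T S : Set (HeightOneSpectrum (𝓞 F)), (∀ v ∈ T, Dp p v) →
  Disjoint T S → (∀ v ∈ S, Sm y v) → S.Finite → ∀ D0 : F, D0 ≠ 0 → ∀ ε : ℝ, 0 < ε →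
  ∃ k0 : ℕ, ∀ k, k0 ≤ k → ∀ z : Fin k → ZMod p, (∀ i, z i ≠ 0) → Nest k fun X =>
    (Box y X : Set (Fin k → HeightOneSpectrum (𝓞 F))).Finite ∧ 0 < ((Ens p y D0 z X).ncard : ℝ) ∧
    ∀ t : ℕ, 1 ≤ t →
      ({q ∈ Ens p y D0 z X | ∃ D, Fits p y D0 z q D ∧
          ∃ (L : Type) (_ : Field L) (_ : NumberField L) (_ : Algebra F L), Kum p F L D ∧
            OutMS L p T S ((p - 1) * (InfinitePlace.nrComplexPlaces F + sX p S D0 - dT p T + t - 1) + 1)}.ncard : ℝ) ≤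
        ((1 / (p : ℝ)) ^ gp (InfinitePlace.nrComplexPlaces F + sX p S D0) (dT p T) / ((p : ℝ) ^ t - 1) + ε) *
          ((Ens p y D0 z X).ncard : ℝ)

open Classical in
theorem shares (hNSB : S_NSB) (hRKR : S_RKR) (hDEP : S_DEP) (hCR1 : S_CR1S) (hCR2 : S_CR2S) (hBRG : S_BRG)
    (hMEAN : S_MEANN) (hLCN : S_LCN) (hSUMC : S_SUMC) : S_SHARES := by
  intro p _ hp F _ _ ζ hζ
  have hpp : p.Prime := Fact.out
  have hp1 : (1 : ℝ) < p := by exact_mod_cast hpp.one_lt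
  have hp0 : (p : ℝ) ≠ 0 := by positivity
  obtain ⟨y0, hy0⟩ := hMEAN p hp F ζ hζ
  refine ⟨max y0 p, fun y hy T S hT hTS hS hSf D0 hD0 ε hε => ?_⟩
  have hyp : p ≤ y := (le_max_right _ _).trans hy
  have hloc := hLCN p hp F ζ hζ y hyp T S hT hTS D0 hD0
  have hsum := hSUMC p hp F ζ hζ y hyp T S hT hTS hS D0 hD0
  obtain ⟨k0, hk0⟩ := hy0 y ((le_max_left _ _).trans hy) D0 hD0 _ _ hloc ε hε
  refine ⟨max k0 1, fun k hk z hz => nest_mono k _ _ (fun X hX => ?_) (hk0 k ((le_max_left _ _).trans hk) z hz)⟩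
  have hk1 : 1 ≤ k := (le_max_right _ _).trans hk
  obtain ⟨hfin, hpos, hN⟩ := hX
  refine ⟨hfin, hpos, fun t ht => ?_⟩
  set N := dT p T with hNdef
  set r := InfinitePlace.nrComplexPlaces F with hr
  set s := sX p S D0 with hs
  set C := ∑ᶠ v, cX p y T S D0 v with hC
  set δ := r + s - N with hδ
  set E := Ens p y D0 z X with hE
  have hEf : E.Finite := hfin.subset fun q hq => hq.1
  set Bd : Set (Fin k → HeightOneSpectrum (𝓞 F)) := {q ∈ E | ∃ D, Fits p y D0 z q D ∧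
    ∃ (L : Type) (_ : Field L) (_ : NumberField L) (_ : Algebra F L), Kum p F L D ∧
      OutMS L p T S ((p - 1) * (r + s - N + t - 1) + 1)} with hBd
  have hBdE : Bd ⊆ E := fun q hq => hq.1
  have hBf : Bd.Finite := hEf.subset hBdE
  -- the bad `q`
  have hbad : ∀ q ∈ Bd, ∃ D, Fits p y D0 z q D ∧ ManyX p y (fun v a => AX p T S D0 v a) D (p ^ (δ + t) - 1) := by
    rintro q ⟨hq, D, hD, L, i1, i2, i3, hK, ho⟩
    refine ⟨D, hD, many_of_out hCR1 hCR2 hBRG hp hζ hyp hT hTS hS hD0 hD (fits_not_pow hq.1 hk1 hz hD) hK ho ?_⟩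
    have h0 : 0 < p - 1 := Nat.sub_pos_of_lt hpp.one_lt
    obtain ⟨w, hw⟩ : ∃ w, δ + t = w + 1 := ⟨δ + t - 1, by omega⟩
    rw [← hδ, hw, Nat.add_sub_cancel, Nat.mul_add, mul_one]
    omega
  -- all `q`
  have hall : ∀ q ∈ E, ∃ D, Fits p y D0 z q D ∧ ManyX p y (fun v a => AX p T S D0 v a) D (p ^ δ - 1) := by
    rintro q ⟨hq, D, hD⟩
    refine ⟨D, hD, ?_⟩
    rcases Nat.eq_zero_or_pos δ with h0 | h0
    · rw [h0, pow_zero, Nat.sub_self]
      exact ⟨fun i => i.elim0, fun i => i.elim0, fun i => i.elim0⟩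
    · have hnp := fits_not_pow hq hk1 hz hD
      obtain ⟨L, i1, i2, i3, hK, _⟩ := Pool.Agent.Q150.LK.exists_kumfield hζ hnp
      have hsD : sX p S D = s := (hBRG p hp F ζ hζ y hyp T S hT hTS hS D0 hD0 k z q D hD).1
      have ho : OutMS L p T S ((p - 1) * δ) := by
        refine out_of_rank hNSB hRKR hp hζ hK hnp hT hTS hSf (not_ind hDEP hp hK.deg hT hTS) ?_
        rw [hsD, ← hNdef]
        have h2 : (p - 1) * δ + (p - 1) * N = (p - 1) * (r + s) := by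
          rw [← Nat.mul_add]
          congr 1
          omega
        rw [← add_assoc]
        exact Nat.succ_le_succ h2.le
      refine many_of_out hCR1 hCR2 hBRG hp hζ hyp hT hTS hS hD0 hD hnp hK ho ?_
      have : 0 < p - 1 := Nat.sub_pos_of_lt hpp.one_lt
      omega
  -- the mean
  have hmean := hN hEf.toFinset (fun q => if q ∈ Bd then p ^ (δ + t) - 1 else p ^ δ - 1)
    (fun q hq => hEf.mem_toFinset.mp hq) (fun q hq => by
      by_cases h : q ∈ Bd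
      · simp only [h, if_true]
        exact hbad q h
      · simp only [h, if_false]
        exact hall q (hEf.mem_toFinset.mp hq))
  have hsumN : (∑ q ∈ hEf.toFinset, ((if q ∈ Bd then p ^ (δ + t) - 1 else p ^ δ - 1 : ℕ) : ℝ)) =
      (Bd.ncard : ℝ) * ((p : ℝ) ^ δ * ((p : ℝ) ^ t - 1)) + (E.ncard : ℝ) * ((p : ℝ) ^ δ - 1) := by
    have h1 : ∀ q : Fin k → HeightOneSpectrum (𝓞 F), ((if q ∈ Bd then p ^ (δ + t) - 1 else p ^ δ - 1 : ℕ) : ℝ) =
        (if q ∈ Bd then (p : ℝ) ^ δ * ((p : ℝ) ^ t - 1) else 0) + ((p : ℝ) ^ δ - 1) := by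
      intro q
      have h2 : ∀ j : ℕ, ((p ^ j - 1 : ℕ) : ℝ) = (p : ℝ) ^ j - 1 := by
        intro j
        rw [Nat.cast_sub (Nat.one_le_pow _ _ hpp.pos)]
        push_cast
        ring
      split_ifs
      · rw [h2, pow_add]
        ring
      · rw [h2]
        ring
    simp_rw [h1]
    rw [Finset.sum_add_distrib, Finset.sum_const, nsmul_eq_mul, ← Set.ncard_eq_toFinset_card E hEf,
      Finset.sum_ite, Finset.sum_const_zero, add_zero, Finset.sum_const, nsmul_eq_mul]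
    congr 2
    rw [Set.ncard_eq_toFinset_card Bd hBf]
    congr 2
    ext q
    simp only [Finset.mem_filter, Set.Finite.mem_toFinset]
    exact ⟨fun h => h.2, fun h => ⟨hBdE h, h⟩⟩
  rw [hsumN] at hmean
  -- the exponent
  have hμ : (p : ℝ) ^ C * (1 / (p : ℝ)) ^ r ≤ (p : ℝ) ^ δ * (1 / (p : ℝ)) ^ (N - (r + s)) := by
    have h1 : C + N ≤ 2 * r + s := hsum
    have h3 : ∀ a b c : ℕ, (p : ℝ) ^ a * (1 / (p : ℝ)) ^ b = (p : ℝ) ^ (a + c) * (1 / (p : ℝ)) ^ (b + c) := by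
      intro a b c
      rw [pow_add, pow_add, mul_mul_mul_comm, ← mul_pow (p : ℝ) (1 / (p : ℝ)) c, mul_one_div_cancel hp0,
        one_pow, mul_one]
    rw [h3 C r (N - (r + s)), h3 δ (N - (r + s)) r, add_comm r (N - (r + s))]
    refine mul_le_mul_of_nonneg_right ?_ (by positivity)
    exact pow_le_pow_right₀ hp1.le (by omega)
  -- the conclusion
  have hEpos : (0 : ℝ) ≤ (E.ncard : ℝ) := by positivity
  have hpt : (0 : ℝ) < (p : ℝ) ^ t - 1 := by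
    have := one_lt_pow₀ hp1 (by omega : t ≠ 0)
    linarith
  have hpt1 : (1 : ℝ) ≤ (p : ℝ) ^ t - 1 := by
    have h1 : (2 : ℝ) ≤ p := by exact_mod_cast hpp.two_le
    have h2 : (p : ℝ) ^ 1 ≤ (p : ℝ) ^ t := pow_le_pow_right₀ hp1.le ht
    rw [pow_one] at h2
    linarith
  have hpd : (1 : ℝ) ≤ (p : ℝ) ^ δ := one_le_pow₀ hp1.le
  have hkey : (Bd.ncard : ℝ) * ((p : ℝ) ^ δ * ((p : ℝ) ^ t - 1)) ≤
      ((1 / (p : ℝ)) ^ (N - (r + s)) + ε) * (E.ncard : ℝ) := by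
    rcases Nat.eq_zero_or_pos δ with h0 | h0
    · rw [h0, pow_zero, one_mul] at hμ hmean ⊢
      have h5 := mul_le_mul_of_nonneg_right hμ hEpos
      linarith
    · have h6 : N - (r + s) = 0 := by omega
      rw [h6, pow_zero, mul_one] at hμ
      rw [h6, pow_zero]
      have h5 := mul_le_mul_of_nonneg_right hμ hEpos
      linarith
  have hg : (1 / (p : ℝ)) ^ gp (r + s) N = (1 / (p : ℝ)) ^ δ * (1 / (p : ℝ)) ^ (N - (r + s)) := by
    rw [← pow_add]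
    rfl
  rw [hg]
  have h7 : (Bd.ncard : ℝ) * (p : ℝ) ^ δ * ((p : ℝ) ^ t - 1) ≤
      ((1 / (p : ℝ)) ^ (N - (r + s)) + ε) * (E.ncard : ℝ) := by
    rw [mul_assoc]
    exact hkey
  have h8 : (Bd.ncard : ℝ) * ((p : ℝ) ^ t - 1) ≤
      (1 / (p : ℝ)) ^ δ * (((1 / (p : ℝ)) ^ (N - (r + s)) + ε) * (E.ncard : ℝ)) := by
    have h9 : (Bd.ncard : ℝ) * ((p : ℝ) ^ t - 1) =
        (1 / (p : ℝ)) ^ δ * ((Bd.ncard : ℝ) * (p : ℝ) ^ δ * ((p : ℝ) ^ t - 1)) := by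
      have h10 : (1 / (p : ℝ)) ^ δ * (p : ℝ) ^ δ = 1 := by
        rw [← mul_pow, one_div_mul_cancel hp0, one_pow]
      calc (Bd.ncard : ℝ) * ((p : ℝ) ^ t - 1) = ((1 / (p : ℝ)) ^ δ * (p : ℝ) ^ δ) * ((Bd.ncard : ℝ) * ((p : ℝ) ^ t - 1)) := by
            rw [h10, one_mul]
        _ = _ := by ring
    rw [h9]
    exact mul_le_mul_of_nonneg_left h7 (by positivity)
  have h11 : (1 / (p : ℝ)) ^ δ ≤ 1 := pow_le_one₀ (by positivity) (by
    rw [div_le_one (by linarith)]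
    exact hp1.le)
  have h12 : (Bd.ncard : ℝ) ≤ (1 / (p : ℝ)) ^ δ * (((1 / (p : ℝ)) ^ (N - (r + s)) + ε) * (E.ncard : ℝ)) /
      ((p : ℝ) ^ t - 1) := (le_div_iff₀ hpt).mpr h8
  refine h12.trans ?_
  have h13 : (1 / (p : ℝ)) ^ δ * (((1 / (p : ℝ)) ^ (N - (r + s)) + ε) * (E.ncard : ℝ)) / ((p : ℝ) ^ t - 1) =
      ((1 / (p : ℝ)) ^ δ * (1 / (p : ℝ)) ^ (N - (r + s)) / ((p : ℝ) ^ t - 1)) * (E.ncard : ℝ) +
        ((1 / (p : ℝ)) ^ δ / ((p : ℝ) ^ t - 1)) * ε * (E.ncard : ℝ) := by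
    ring
  have h14 : (1 / (p : ℝ)) ^ δ / ((p : ℝ) ^ t - 1) ≤ 1 := by
    rw [div_le_one hpt]
    linarith
  have h15 : ((1 / (p : ℝ)) ^ δ / ((p : ℝ) ^ t - 1)) * ε * (E.ncard : ℝ) ≤ 1 * ε * (E.ncard : ℝ) :=
    mul_le_mul_of_nonneg_right (mul_le_mul_of_nonneg_right h14 hε.le) hEpos
  rw [h13]
  linarith

end Pool.Agent.Q7.LS
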