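import Pool.Agent.Q7.LS.Main
import Pool.Agent.Q7.LK.All3
import Pool.Agent.Q265.EN.TRF
import Pool.Agent.Q190.LS.SUR
import Pool.Agent.Q77.LS.SPL
import Pool.Agent.Q223.LS.NSB
import Pool.Agent.Q113.LS.RKR
import Pool.Agent.Q94.LS.OUT
import Pool.Agent.Q173.LS.Dfn
import Pool.Agent.Q176.LS.CR1S
import Pool.Agent.Q181.LS.CLA
import Pool.Agent.Q124.LS.CLB
import Pool.Agent.Q151.LS.CTS
import Pool.Agent.Q151.LS.CUS
import Pool.Agent.Q252.LS.NSP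
import Pool.Agent.Q79.LS.CR2S
import Pool.Agent.Q176.LS.AAN
import Pool.Agent.Q224.LS.SH2N
import Pool.Agent.Q31.LS.MEANN
import Pool.Agent.Q252.LS.LCN
import Pool.Agent.Q224.LS.SUMC
import Pool.Agent.Q79.LS.BRG

/-!
# Project LS (helper7): all parts together
-/

set_option autoImplicit false

namespace Pool.Agent.Q7.LS

open Pool.Agent.Q7.LK

theorem t_SUR : S_SUR := Pool.Agent.Q190.LS.sur
theorem t_SPL : S_SPL := Pool.Agent.Q77.LS.spl t_CPL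
theorem t_NSB : S_NSB := Pool.Agent.Q223.LS.nsb t_SUR t_SPL
theorem t_RKR : S_RKR := Pool.Agent.Q113.LS.rkr
theorem t_OUT : S_OUT := Pool.Agent.Q94.LS.out
theorem t_DFN : S_DFN := Pool.Agent.Q173.LS.dfn
theorem t_CR1S : S_CR1S := Pool.Agent.Q176.LS.cr1s
theorem t_CR2S : S_CR2S :=
  Pool.Agent.Q79.LS.cr2s Pool.Agent.Q181.LS.cla (Pool.Agent.Q124.LS.clb t_BAS) (Pool.Agent.Q151.LS.cts t_BAS)
    (Pool.Agent.Q151.LS.cus t_BAS t_CPL) Pool.Agent.Q252.LS.nsp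
theorem t_EEN : S_EEN := Pool.Agent.Q176.LS.een Pool.Agent.Q176.LS.aan
theorem t_SH2N : S_SH2N := Pool.Agent.Q224.LS.sh2n t_BAS t_SH1
theorem t_MEANN : S_MEANN :=
  Pool.Agent.Q31.LS.meann t_EEN t_SH2N t_BASE t_LOC t_COUNT (Pool.Agent.Q265.EN.trf t_NEST t_SH1)
theorem t_LCN : S_LCN := Pool.Agent.Q252.LS.lcn t_BAS t_ATL t_AUN t_AUC t_LOCV
theorem t_SUMC : S_SUMC := Pool.Agent.Q224.LS.sumc t_LOC
theorem t_BRG : S_BRG := Pool.Agent.Q79.LS.brg t_BAS t_ATL t_AUC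

end Pool.Agent.Q7.LS
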