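import Pool.Agent.Q7.LK.Stm3
import Pool.Agent.Q283.EN.Stm

/-!
# Project LS (helper7): `p`-adic closures of groups of `S`-units in Kummer extensions: definitions

`p` is an odd prime, `F` a number field containing a primitive `p`-th root of unity `ζ`, `L = F(d^(1/p))`; `T` is a set of primes of
`F` above `p`, `S` a finite set of primes of `F`, disjoint from `T`.
-/

set_option autoImplicit false

namespace Pool.Agent.Q7.LS

open NumberField IsDedekindDomain Filter Topology Finset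
open Pool.Agent.Q283.LQ (Sm Box Nest nS)
open Pool.Agent.Q7.LK
open Pool.Agent.Q283.EN (CondX)

section L

variable {F : Type} [Field F] [NumberField F] {L : Type} [Field L] [NumberField L] [Algebra F L]

/-- the prime `P` of `L` lies above the prime `v` of `F` -/
def Ab (v : HeightOneSpectrum (𝓞 F)) (P : HeightOneSpectrum (𝓞 L)) : Prop :=
  v.asIdeal.map (algebraMap (𝓞 F) (𝓞 L)) ≤ P.asIdeal

/-- `x` is a unit at all primes of `L` above `v` -/
def Un (v : HeightOneSpectrum (𝓞 F)) (x : L) : Prop :=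
  ∀ P : HeightOneSpectrum (𝓞 L), Ab v P → P.valuation L x = 1

/-- `x - 1` is divisible by `p ^ N` at all primes of `L` above the elements of `T` -/
def Nr (p : ℕ) (T : Set (HeightOneSpectrum (𝓞 F))) (N : ℕ) (x : L) : Prop :=
  ∀ v ∈ T, ∀ P : HeightOneSpectrum (𝓞 L), Ab v P → P.valuation L (x - 1) ≤ P.valuation L ((p : L) ^ N)

/-- the vector `a` of `p`-adic integers is a relation between the `x i` at the places above `T`: there are integral
vectors `m k` which tend to `a`, such that the numbers `∏ x i ^ m k i` tend to `1` at all primes above `T` -/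
def RelT (p : ℕ) [Fact p.Prime] (T : Set (HeightOneSpectrum (𝓞 F))) {n : ℕ} (x : Fin n → Lˣ) (a : Fin n → ℤ_[p]) :
    Prop :=
  ∃ m : ℕ → Fin n → ℤ, (∀ i, Tendsto (fun k => ((m k i : ℤ) : ℤ_[p])) atTop (𝓝 (a i))) ∧
    ∀ N : ℕ, ∀ᶠ k in atTop, Nr p T N (((∏ i, x i ^ m k i : Lˣ)) : L)

variable (F) in
/-- the relative norm -/
noncomputable def nmU : Lˣ →* Fˣ := Units.map (Algebra.norm F : L →* F)

variable (L) in
/-- the `S`-units of `L` -/
def SUn (S : Set (HeightOneSpectrum (𝓞 F))) : Subgroup Lˣ where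
  carrier := {x | ∀ v, v ∉ S → Un v (x : L)}
  one_mem' := by
    intro v _ P _
    simp
  mul_mem' := by
    intro x y hx hy v hv P hP
    rw [Units.val_mul, map_mul, hx v hv P hP, hy v hv P hP, one_mul]
  inv_mem' := by
    intro x hx v hv P hP
    rw [Units.val_inv_eq_inv_val, map_inv₀, hx v hv P hP, inv_one]

variable (L) in
/-- the `S`-units of `L` of relative norm `1` -/
noncomputable def NS (S : Set (HeightOneSpectrum (𝓞 F))) : Subgroup Lˣ := SUn L S ⊓ (nmU F).ker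

/-- the defect of `H` at `T` is at least `t`: there are multiplicatively independent elements of `H` with `t` relations at
the places above `T` which are linearly independent over the `p`-adic integers -/
def DefH (p : ℕ) [Fact p.Prime] (T : Set (HeightOneSpectrum (𝓞 F))) (H : Subgroup Lˣ) (t : ℕ) : Prop :=
  ∃ (n : ℕ) (ε : Fin n → Lˣ), (∀ i, ε i ∈ H) ∧ (∀ c : Fin n → ℤ, ∏ i, ε i ^ c i = 1 → c = 0) ∧
    ∃ a : Fin t → Fin n → ℤ_[p], LinearIndependent ℤ_[p] a ∧ ∀ j, RelT p T ε (a j)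

variable (L) in
/-- `θ` is a basis of the group `NS L S` modulo torsion -/
def IsBas (S : Set (HeightOneSpectrum (𝓞 F))) {n : ℕ} (θ : Fin n → Lˣ) (h : ℕ) : Prop :=
  0 < h ∧ (∀ i, θ i ∈ NS L S) ∧ (∀ c : Fin n → ℤ, ∏ i, θ i ^ c i = 1 → c = 0) ∧
    ∀ η ∈ NS L S, ∃ c : Fin n → ℤ, η ^ h = (∏ i, θ i ^ c i) ^ h

variable (L) in
/-- a basis of `NS L S` modulo torsion has `m` independent relations at `T` -/
def OutMS (p : ℕ) [Fact p.Prime] (T S : Set (HeightOneSpectrum (𝓞 F))) (m : ℕ) : Prop :=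
  ∃ (n : ℕ) (θ : Fin n → Lˣ) (h : ℕ), IsBas L S θ h ∧
    ∃ a : Fin m → Fin n → ℤ_[p], LinearIndependent ℤ_[p] a ∧ ∀ j, RelT p T θ (a j)

/-- `t` elements `w` of `NS L S`, independent modulo `p`-th powers and the `ζ^j σ(η) / η`, and close to roots of unity times
`p`-th powers at `T` -/
def OutWS (p : ℕ) (ζ : F) (T S : Set (HeightOneSpectrum (𝓞 F))) (σ : L ≃ₐ[F] L) (t : ℕ) : Prop :=
  ∃ w : Fin t → Lˣ, (∀ i, w i ∈ NS L S) ∧
    (∀ c : Fin t → ℤ, (∃ i, ¬ (p : ℤ) ∣ c i) → ∀ η ∈ NS L S, ∀ j : ℕ,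
      ((∏ i, w i ^ c i : Lˣ) : L) * (η : L) ≠ (algebraMap F L ζ) ^ j * σ (η : L)) ∧
    ∃ M : ℕ, ∀ (c : Fin t → ℤ) (N : ℕ), ∃ η ∈ NS L S, Nr p T N ((((∏ i, w i ^ c i) * η ^ p) ^ p ^ M : Lˣ) : L)

end L

section F

variable {F : Type} [Field F] [NumberField F]

/-- the local conditions at a place outside `p` -/
def Ao (p : ℕ) (v : HeightOneSpectrum (𝓞 F)) (D a : F) : Prop :=
  a ≠ 0 ∧ (vl p v D = 0 → vl p v a = 0) ∧ (vl p v D ≠ 0 → ∃ j : ℕ, Lpw p v (a * D ^ j))

/-- the local condition at the place `v`: at `T` the classes of the elements close to roots of unity; at the places of `S` where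
`D` is a local `p`-th power no condition; at the other places the classes of the units -/
structure AX (p : ℕ) (T S : Set (HeightOneSpectrum (𝓞 F))) (D : F) (v : HeightOneSpectrum (𝓞 F)) (a : F) : Prop where
  ne : a ≠ 0
  inT : v ∈ T → AT p v D a
  inp : v ∉ T → Dp p v → ¬ (v ∈ S ∧ Lpw p v D) → AU p v D a
  out : v ∉ T → ¬ Dp p v → ¬ (v ∈ S ∧ Lpw p v D) → Ao p v D a

open Classical in
/-- the exponents of the numbers of the local classes, minus `1` -/
noncomputable def cX (p y : ℕ) (T S : Set (HeightOneSpectrum (𝓞 F))) (D : F) (v : HeightOneSpectrum (𝓞 F)) : ℕ :=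
  if v ∈ T ∨ ¬ Sm y v then 0 else if v ∈ S ∧ Lpw p v D then dv p v + 1 else dv p v

/-- `∑ [F_v : ℚ_p]`, `v ∈ T` -/
noncomputable def dT (p : ℕ) (T : Set (HeightOneSpectrum (𝓞 F))) : ℕ := ∑ᶠ v : T, dv p v.1

/-- the number of the places of `S` at which `D` is a local `p`-th power -/
noncomputable def sX (p : ℕ) (S : Set (HeightOneSpectrum (𝓞 F))) (D : F) : ℕ := {v | v ∈ S ∧ Lpw p v D}.ncard

/-- there are `N` numbers with the local conditions `AX` everywhere which are pairwise different, and different from `1`, up to `p`-th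
powers and powers of `D` -/
def ManyL (p : ℕ) (T S : Set (HeightOneSpectrum (𝓞 F))) (D : F) (N : ℕ) : Prop :=
  ∃ a : Fin N → F, (∀ i, (∀ v, AX p T S D v (a i)) ∧ ∀ j : ℕ, ¬ IsPow p (a i * D ^ j)) ∧
    ∀ i i', i ≠ i' → ∀ j : ℕ, ¬ IsPow p (a i / a i' * D ^ j)

/-- the same with local conditions `A v` at the small places -/
def ManyX (p y : ℕ) (A : HeightOneSpectrum (𝓞 F) → F → Prop) (D : F) (N : ℕ) : Prop :=
  ∃ a : Fin N → F, (∀ i, CondX p y A D (a i) ∧ ∀ j : ℕ, ¬ IsPow p (a i * D ^ j)) ∧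
    ∀ i i', i ≠ i' → ∀ j : ℕ, ¬ IsPow p (a i / a i' * D ^ j)

/-- sets `A v` of local classes modulo `p`-th powers, of at most `p ^ (c v + 1)` elements, closed under the multiplication by `D0`, for the
places `v` above the rational primes `≤ y` -/
structure LocN (p y : ℕ) (D0 : F) (A : HeightOneSpectrum (𝓞 F) → F → Prop) (c : HeightOneSpectrum (𝓞 F) → ℕ) : Prop where
  ne : ∀ v a, Sm y v → A v a → a ≠ 0
  mul : ∀ v a b, Sm y v → A v a → Lpw p v b → A v (a * b)
  clo : ∀ v a, Sm y v → A v a → A v (a * D0)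
  num : ∀ v, Sm y v → ∀ B : Finset F, (∀ b ∈ B, A v b) →
    (∀ b ∈ B, ∀ b' ∈ B, b ≠ b' → ¬ Lpw p v (b / b')) → B.card ≤ p ^ (c v + 1)
  zero : ∀ v, ¬ Sm y v → c v = 0

/-- the `q` to which some `D` belongs -/
def Ens (p y : ℕ) (D0 : F) {k : ℕ} (z : Fin k → ZMod p) (X : Fin k → ℕ) : Set (Fin k → HeightOneSpectrum (𝓞 F)) :=
  {q ∈ (Box y X : Set (Fin k → HeightOneSpectrum (𝓞 F))) | ∃ D, Fits p y D0 z q D}

end F

end Pool.Agent.Q7.LS
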